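import Pool.Agent.Y924.UF.Stm

/-! Project UF (helper924), RES: the constant coefficient of a Laurent series over `F_p` -/

set_option autoImplicit false

namespace Pool.Agent.Y15.UF

open Pool.Agent.Y924.UF Finset

section

variable {p : ℕ} [hp : Fact p.Prime]

instance inst_char : CharP (LaurentSeries (ZMod p)) p :=
  charP_of_injective_ringHom (f := (HahnSeries.C : ZMod p →+* HahnSeries ℤ (ZMod p)))
    HahnSeries.C_injective p

/-- a bound for the support -/
theorem exists_bd (y : LaurentSeries (ZMod p)) : ∃ B : ℕ, ∀ n : ℤ, n < -(B : ℤ) → y.coeff n = 0 :=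
  ⟨(-y.order).toNat, fun n hn => HahnSeries.coeff_eq_zero_of_lt_order (by omega)⟩

/-- the coefficients of the `p`-th power -/
theorem coeff_pow (w : LaurentSeries (ZMod p)) (n : ℤ) :
    (w ^ p).coeff n = if (p : ℤ) ∣ n then w.coeff (n / p) else 0 := by
  classical
  have hp0 : 0 < p := hp.out.pos
  have hp1 : (0 : ℤ) < p := by exact_mod_cast hp0
  obtain ⟨M, hM1, hM2⟩ : ∃ M : ℤ, n < p * M ∧ n / p < M := by
    refine ⟨max (n + 1) (n / p + 1) ⊔ 1, ?_, ?_⟩
    · have h1 : n + 1 ≤ max (n + 1) (n / p + 1) ⊔ 1 :=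
        (le_max_left _ _).trans (le_max_left _ _)
      have h2 : (1 : ℤ) ≤ max (n + 1) (n / p + 1) ⊔ 1 := le_max_right _ _
      have h3 : (1 : ℤ) ≤ p := by omega
      nlinarith
    · have h1 : n / p + 1 ≤ max (n + 1) (n / p + 1) ⊔ 1 :=
        (le_max_right _ _).trans (le_max_left _ _)
      omega
  obtain ⟨w1, hw1⟩ : ∃ w1 : LaurentSeries (ZMod p),
      w1 = ∑ m ∈ Finset.Ico w.order M, HahnSeries.single m (w.coeff m) := ⟨_, rfl⟩
  have hc1 : ∀ m, w1.coeff m = if m ∈ Finset.Ico w.order M then w.coeff m else 0 := by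
    intro m
    rw [hw1, HahnSeries.coeff_sum]
    simp only [HahnSeries.coeff_single]
    by_cases hm : m ∈ Finset.Ico w.order M
    · rw [if_pos hm, Finset.sum_eq_single m]
      · rw [if_pos rfl]
      · intro m' _ hne
        rw [if_neg fun h8 => hne h8.symm]
      · intro h8
        exact absurd hm h8
    · rw [if_neg hm]
      refine Finset.sum_eq_zero fun m' hm' => ?_
      rw [if_neg]
      rintro rfl
      exact hm hm'
  have h2 : ∀ m, m < M → (w - w1).coeff m = 0 := by
    intro m hm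
    rw [HahnSeries.coeff_sub, hc1]
    by_cases h3 : m < w.order
    · rw [HahnSeries.coeff_eq_zero_of_lt_order h3, ite_self, sub_self]
    · rw [if_pos (Finset.mem_Ico.2 ⟨not_lt.1 h3, hm⟩), sub_self]
  have h3 : ((w - w1) ^ p).coeff n = 0 := by
    by_cases h4 : w - w1 = 0
    · rw [h4, zero_pow hp0.ne', HahnSeries.coeff_zero]
    · apply HahnSeries.coeff_eq_zero_of_lt_order
      rw [HahnSeries.order_pow]
      have h5 : M ≤ (w - w1).order := by
        by_contra h6
        have h7 := h2 _ (not_le.1 h6)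
        exact h4 (HahnSeries.coeff_order_eq_zero.1 h7)
      have h8 : p • (w - w1).order = (p : ℤ) * (w - w1).order := by simp
      rw [h8]
      calc n < p * M := hM1
        _ ≤ _ := mul_le_mul_of_nonneg_left h5 hp1.le
  have h4 : w ^ p = w1 ^ p + (w - w1) ^ p := by
    rw [← add_pow_char]
    congr 1
    ring
  have h5 : w1 ^ p = ∑ m ∈ Finset.Ico w.order M, HahnSeries.single ((p : ℤ) * m) (w.coeff m) := by
    rw [hw1, sum_pow_char]
    refine Finset.sum_congr rfl fun m _ => ?_
    rw [HahnSeries.single_pow, ZMod.pow_card]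
    rfl
  rw [h4, HahnSeries.coeff_add, h3, add_zero, h5, HahnSeries.coeff_sum]
  simp only [HahnSeries.coeff_single]
  by_cases h6 : (p : ℤ) ∣ n
  · rw [if_pos h6]
    obtain ⟨m, rfl⟩ := h6
    rw [Int.mul_ediv_cancel_left _ hp1.ne'] at hM2 ⊢
    by_cases h7 : m < w.order
    · rw [HahnSeries.coeff_eq_zero_of_lt_order h7]
      refine Finset.sum_eq_zero fun m' hm' => ?_
      rw [if_neg]
      intro h8
      have h9 : m = m' := mul_left_cancel₀ hp1.ne' h8
      have := (Finset.mem_Ico.1 hm').1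
      omega
    · rw [Finset.sum_eq_single m]
      · rw [if_pos rfl]
      · intro m' _ hne
        rw [if_neg fun h8 => hne (mul_left_cancel₀ hp1.ne' h8).symm]
      · intro h8
        exact absurd (Finset.mem_Ico.2 ⟨not_lt.1 h7, hM2⟩) h8
  · rw [if_neg h6]
    refine Finset.sum_eq_zero fun m _ => ?_
    rw [if_neg]
    rintro rfl
    exact h6 (Dvd.intro _ rfl)

/-- the uniformizer -/
noncomputable abbrev tt : LaurentSeries (ZMod p) := HahnSeries.single (1 : ℤ) (1 : ZMod p)

theorem coeff_tt (y : LaurentSeries (ZMod p)) (n : ℤ) :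
    ((HahnSeries.single (1 : ℤ) (1 : ZMod p)) * y).coeff n = y.coeff (n - 1) := by
  rw [HahnSeries.coeff_single_mul, one_mul]

theorem emod_succ {n : ℤ} (h : ¬ (p : ℤ) ∣ n) : (n - 1) % p = n % p - 1 := by
  have hp1 : (0 : ℤ) < p := by exact_mod_cast hp.out.pos
  have h1 : n % p ≠ 0 := fun h2 => h (Int.dvd_of_emod_eq_zero h2)
  have h2 := Int.emod_nonneg n hp1.ne'
  have h3 := Int.emod_lt_of_pos n hp1
  have h4 := Int.emod_add_mul_ediv n p
  have h5 : n - 1 = (n % p - 1) + p * (n / p) := by omega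
  rw [h5, Int.add_mul_emod_self_left, Int.emod_eq_of_lt (by omega) (by omega)]

theorem Ex_coeff (k : ℕ) : ∀ y : LaurentSeries (ZMod p),
    Ex (HahnSeries.single (1 : ℤ) (1 : ZMod p)) p k y → ∀ n : ℤ, (k : ℤ) ≤ n % p →
      y.coeff n = 0 := by
  induction k with
  | zero =>
    intro y hy n _
    have h1 : y = 0 := hy
    rw [h1, HahnSeries.coeff_zero]
  | succ k ih =>
    rintro y ⟨w, y', h1, rfl⟩ n hn
    have h2 : ¬ (p : ℤ) ∣ n := by
      intro h3
      rw [Int.emod_eq_zero_of_dvd h3] at hn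
      omega
    rw [HahnSeries.coeff_add, coeff_pow, if_neg h2, coeff_tt, zero_add]
    refine ih y' h1 _ ?_
    rw [emod_succ h2]
    push_cast at hn
    omega

theorem Ex_of (k : ℕ) : ∀ y : LaurentSeries (ZMod p), (∀ n : ℤ, (k : ℤ) ≤ n % p → y.coeff n = 0) →
    Ex (HahnSeries.single (1 : ℤ) (1 : ZMod p)) p k y := by
  have hp1 : (0 : ℤ) < p := by exact_mod_cast hp.out.pos
  induction k with
  | zero =>
    intro y hy
    show y = 0
    ext n
    rw [HahnSeries.coeff_zero]
    exact hy n (by exact_mod_cast Int.emod_nonneg n hp1.ne')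
  | succ k ih =>
    intro y hy
    obtain ⟨B, hB⟩ := exists_bd y
    obtain ⟨w, hw⟩ : ∃ w : LaurentSeries (ZMod p), ∀ m, w.coeff m = y.coeff (p * m) := by
      refine ⟨HahnSeries.ofSuppBddBelow (fun m => y.coeff (p * m)) ⟨-(B : ℤ), ?_⟩, fun m => rfl⟩
      intro m hm
      by_contra h1
      apply hm
      refine hB _ ?_
      push Not at h1
      have h2 : (p : ℤ) * m ≤ 1 * m := mul_le_mul_of_nonpos_right (by omega) (by omega)
      omega
    refine ⟨w, HahnSeries.single (-1 : ℤ) (1 : ZMod p) * (y - w ^ p), ih _ ?_, ?_⟩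
    · intro n hn
      rw [HahnSeries.coeff_single_mul, one_mul, sub_neg_eq_add, HahnSeries.coeff_sub, coeff_pow]
      by_cases h1 : (p : ℤ) ∣ n + 1
      · rw [if_pos h1, hw, Int.mul_ediv_cancel' h1, sub_self]
      · rw [if_neg h1, sub_zero]
        refine hy _ ?_
        have h2 := emod_succ (p := p) h1
        rw [add_sub_cancel_right] at h2
        push_cast
        omega
    · rw [← mul_assoc, HahnSeries.single_mul_single]
      have h1 : (HahnSeries.single ((1 : ℤ) + -1) ((1 : ZMod p) * 1)) =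
          (1 : LaurentSeries (ZMod p)) := by
        rw [add_neg_cancel, mul_one]
        rfl
      rw [h1, one_mul, add_sub_cancel]

/-- the part of the solution with negative indices -/
theorem exists_neg (a : ℕ → ZMod p) (B : ℕ) (ha : ∀ n, B < n → a n = 0) :
    ∃ V : ℕ → ZMod p, (∀ n, 0 < n → V n = a (p * n) + V (p * n)) ∧ ∀ n, B < n → V n = 0 := by
  have hp0 : 0 < p := hp.out.pos
  refine ⟨fun n => ∑ k ∈ range B, a (p ^ (k + 1) * n), fun n hn => ?_, fun n hn => ?_⟩
  · have h1 : a (p ^ (B + 1) * n) = 0 := by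
      refine ha _ ?_
      have h2 : B < p ^ B := Nat.lt_pow_self hp.out.one_lt
      have h3 : p ^ B ≤ p ^ (B + 1) * n := by
        rw [pow_succ, mul_assoc]
        exact Nat.le_mul_of_pos_right _ (Nat.mul_pos hp0 hn)
      omega
    have h2 : ∑ k ∈ range B, a (p ^ (k + 1) * n) =
        ∑ k ∈ range (B + 1), a (p ^ (k + 1) * n) := by
      rw [Finset.sum_range_succ, h1, add_zero]
    simp only
    rw [h2, Finset.sum_range_succ', add_comm]
    congr 1
    · rw [zero_add, pow_one]
    · refine Finset.sum_congr rfl fun k _ => ?_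
      congr 1
      ring
  · refine Finset.sum_eq_zero fun k _ => ha _ ?_
    have h3 : n ≤ p ^ (k + 1) * n := Nat.le_mul_of_pos_left _ (pow_pos hp0 _)
    omega

/-- the part of the solution with positive indices -/
theorem exists_pos (a : ℕ → ZMod p) : ∃ V : ℕ → ZMod p, ∀ n, 0 < n → V n = a (p * n) + V (p * n) := by
  have hp0 : 0 < p := hp.out.pos
  have hp2 : 1 < p := hp.out.one_lt
  -- values with enough fuel
  obtain ⟨U, hU⟩ : ∃ U : ℕ → ℕ → ZMod p, ∀ s n, U (s + 1) n =
      if p ∣ n ∧ 0 < n then U s (n / p) - a n else 0 := by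
    refine ⟨fun s => Nat.rec (fun _ => 0) (fun _ f n => if p ∣ n ∧ 0 < n then f (n / p) - a n
      else 0) s, fun s n => rfl⟩
  have hfuel : ∀ n s s', n < s → n < s' → U s n = U s' n := by
    intro n
    induction n using Nat.strong_induction_on with
    | _ n ih =>
      intro s s' hs hs'
      obtain ⟨s, rfl⟩ : ∃ r, s = r + 1 := ⟨s - 1, by omega⟩
      obtain ⟨s', rfl⟩ : ∃ r, s' = r + 1 := ⟨s' - 1, by omega⟩
      rw [hU, hU]
      by_cases h1 : p ∣ n ∧ 0 < n
      · rw [if_pos h1, if_pos h1]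
        have h2 : n / p < n := Nat.div_lt_self h1.2 hp2
        rw [ih _ h2 s s' (by omega) (by omega)]
      · rw [if_neg h1, if_neg h1]
  refine ⟨fun n => U (n + 1) n, fun n hn => ?_⟩
  simp only
  have h1 : p ∣ p * n ∧ 0 < p * n := ⟨Dvd.intro _ rfl, Nat.mul_pos hp0 hn⟩
  have h2 : U (p * n + 1) (p * n) = U (p * n) n - a (p * n) := by
    rw [hU, if_pos h1, Nat.mul_div_cancel_left _ hp0]
  rw [h2, hfuel n (n + 1) (p * n) (by omega) (by nlinarith)]
  ring

/-- the equation for the coefficients -/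
theorem exists_w (z : LaurentSeries (ZMod p)) (hz : z.coeff 0 = 0) :
    ∃ w : LaurentSeries (ZMod p), ∀ m : ℤ, w.coeff m = z.coeff (p * m) + w.coeff (p * m) := by
  have hp0 : 0 < p := hp.out.pos
  have hp1 : (0 : ℤ) < p := by exact_mod_cast hp0
  obtain ⟨B, hB⟩ := exists_bd z
  obtain ⟨V, hV1, hV2⟩ := exists_neg (fun n => z.coeff (-(n : ℤ))) B (fun n hn => hB _ (by omega))
  obtain ⟨W, hW⟩ := exists_pos (p := p) (fun n => z.coeff (n : ℤ))
  let f : ℤ → ZMod p := fun m => if 0 < m then W m.toNat else if m < 0 then V (-m).toNat else 0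
  have hf : BddBelow (Function.support f) := by
    refine ⟨-(B : ℤ), fun m hm => ?_⟩
    by_contra h1
    push Not at h1
    apply hm
    show (if 0 < m then W m.toNat else if m < 0 then V (-m).toNat else 0) = 0
    rw [if_neg (by omega), if_pos (by omega)]
    exact hV2 _ (by omega)
  refine ⟨HahnSeries.ofSuppBddBelow f hf, fun m => ?_⟩
  show f m = z.coeff (p * m) + f (p * m)
  rcases lt_trichotomy m 0 with h | h | h
  · obtain ⟨n, hn⟩ : ∃ n : ℕ, m = -(n : ℤ) := ⟨(-m).toNat, by omega⟩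
    subst hn
    have hn0 : 0 < n := by omega
    have h1 := hV1 n hn0
    have h2 : (p : ℤ) * -(n : ℤ) = -((p * n : ℕ) : ℤ) := by push_cast; ring
    have h3 : 0 < p * n := Nat.mul_pos hp0 hn0
    rw [h2]
    show (if 0 < -(n : ℤ) then W (-(n : ℤ)).toNat else if -(n : ℤ) < 0 then V (-(-(n : ℤ))).toNat
      else 0) = _ + (if 0 < -((p * n : ℕ) : ℤ) then W (-((p * n : ℕ) : ℤ)).toNat else
      if -((p * n : ℕ) : ℤ) < 0 then V (-(-((p * n : ℕ) : ℤ))).toNat else 0)
    rw [if_neg (by omega), if_pos (by omega), if_neg (by omega), if_pos (by omega), neg_neg,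
      neg_neg, Int.toNat_natCast, Int.toNat_natCast]
    exact h1
  · subst h
    rw [mul_zero, hz, zero_add]
  · obtain ⟨n, hn⟩ : ∃ n : ℕ, m = (n : ℤ) := ⟨m.toNat, by omega⟩
    subst hn
    have hn0 : 0 < n := by omega
    have h1 := hW n hn0
    have h2 : (p : ℤ) * (n : ℤ) = ((p * n : ℕ) : ℤ) := by push_cast; ring
    have h3 : 0 < p * n := Nat.mul_pos hp0 hn0
    rw [h2]
    show (if 0 < (n : ℤ) then W ((n : ℤ)).toNat else if (n : ℤ) < 0 then V (-(n : ℤ)).toNat
      else 0) = _ + (if 0 < ((p * n : ℕ) : ℤ) then W (((p * n : ℕ) : ℤ)).toNat else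
      if ((p * n : ℕ) : ℤ) < 0 then V (-((p * n : ℕ) : ℤ)).toNat else 0)
    rw [if_pos (by omega), if_pos (by omega), Int.toNat_natCast, Int.toNat_natCast]
    exact h1

end

theorem t_RES : S_RES := by
  intro p hp z
  have hp0 : 0 < p := hp.out.pos
  have hp1 : (0 : ℤ) < p := by exact_mod_cast hp0
  constructor
  · rintro ⟨w, y', h1, h2⟩
    have h3 : (y'.coeff (-1)) = 0 := by
      refine Ex_coeff (p - 1) y' h1 _ ?_
      have h4 : ((-1 : ℤ)) % p = p - 1 := by
        have h5 : (-1 : ℤ) = (p - 1) + p * (-1) := by ring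
        rw [h5, Int.add_mul_emod_self_left, Int.emod_eq_of_lt (by omega) (by omega)]
      rw [h4]
      omega
    have h4 := congrArg (fun y : LaurentSeries (ZMod p) => y.coeff 0) h2
    rw [HahnSeries.coeff_add, HahnSeries.coeff_add, coeff_pow, if_pos (dvd_zero _), coeff_tt,
      Int.zero_ediv, zero_sub, h3, add_zero] at h4
    have h5 : w.coeff 0 = z.coeff 0 + w.coeff 0 := h4
    linear_combination (-1 : ZMod p) * h5
  · intro hz
    obtain ⟨w, hw⟩ := exists_w z hz
    refine ⟨w, HahnSeries.single (-1 : ℤ) (1 : ZMod p) * (z + w - w ^ p), Ex_of _ _ ?_, ?_⟩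
    · intro n hn
      rw [HahnSeries.coeff_single_mul, one_mul, sub_neg_eq_add, HahnSeries.coeff_sub,
        HahnSeries.coeff_add, coeff_pow]
      have h1 : (p : ℤ) ∣ n + 1 := by
        by_contra h2
        have h3 := emod_succ (p := p) h2
        rw [add_sub_cancel_right] at h3
        have h4 := Int.emod_lt_of_pos (n + 1) hp1
        omega
      rw [if_pos h1, hw ((n + 1) / p), Int.mul_ediv_cancel' h1, sub_self]
    · rw [← mul_assoc, HahnSeries.single_mul_single]
      have h1 : (HahnSeries.single ((1 : ℤ) + -1) ((1 : ZMod p) * 1)) =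
          (1 : LaurentSeries (ZMod p)) := by
        rw [add_neg_cancel, mul_one]
        rfl
      rw [h1, one_mul, add_sub_cancel]

end Pool.Agent.Y15.UF
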